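import Mathlib
import Pool.Agent.H753R3.LM.Stmts

set_option autoImplicit false

namespace Pool.Agent.H753R3.LM

open Topology Filter Set

theorem taskT3 : TaskT3 := by
  classical
  intro G _ _ _ _ _ V hV D hD hdir
  have hmono1 : ∀ n, V (n + 1) ⊆ V n := fun n x hx => by
    simpa using hV.add n x hx 0 (hV.zero _)
  have hanti : Antitone V := antitone_nat_of_succ_le hmono1
  have hnat : ∀ (k n : ℕ), ∀ v ∈ V (n + k), (k : ℕ) • v ∈ V n := by
    intro k
    induction k with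
    | zero => intro n v hv; simpa using hV.zero n
    | succ k ih =>
      intro n v hv
      rw [succ_nsmul]
      refine hV.add n _ (ih (n + 1) v ?_) _ (hanti ?_ hv)
      · rw [show n + 1 + k = n + (k + 1) by omega]; exact hv
      · omega
  have hintm : ∀ (e : ℤ) (n : ℕ), ∀ v ∈ V (n + e.natAbs), e • v ∈ V n := by
    intro e n v hv
    have h1 := hnat _ _ v hv
    rcases Int.natAbs_eq e with h | h
    · have h2 : e • v = e.natAbs • v := by
        conv_lhs => rw [h]
        rw [natCast_zsmul]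
      rw [h2]; exact h1
    · have h2 : e • v = -(e.natAbs • v) := by
        conv_lhs => rw [h]
        rw [neg_zsmul, natCast_zsmul]
      rw [h2]; exact hV.neg n _ h1
  let C : AddSubgroup G :=
    { carrier := {x | ∀ d ∈ D, ∀ n, x ∈ closure (mul d (V n))}
      zero_mem' := fun d _ n => subset_closure ⟨0, hV.zero n, by simp⟩
      add_mem' := by
        intro x y hx hy d hd n
        refine map_mem_closure₂ continuous_add (hx d hd (n + 1)) (hy d hd (n + 1)) ?_
        rintro a ⟨v, hv, rfl⟩ b ⟨v', hv', rfl⟩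
        exact ⟨v + v', hV.add n v hv v' hv', by rw [smul_add]⟩
      neg_mem' := by
        intro x hx d hd n
        refine map_mem_closure continuous_neg (hx d hd n) ?_
        rintro a ⟨v, hv, rfl⟩
        exact ⟨-v, hV.neg n v hv, by rw [smul_neg]⟩ }
  have hC : ∀ x : G, x ∈ C ↔ ∀ d ∈ D, ∀ n, x ∈ closure (mul d (V n)) := fun x => Iff.rfl
  have hCcl : IsClosed (C : Set G) := by
    have h1 : (C : Set G) = ⋂ d ∈ D, ⋂ n, closure (mul d (V n)) := by
      ext x
      simp only [SetLike.mem_coe, hC, mem_iInter]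
    rw [h1]
    exact isClosed_biInter fun d _ => isClosed_iInter fun n => isClosed_closure
  refine ⟨C, ?_, ?_, ?_⟩
  · refine TotallyBounded.isCompact_of_isClosed ?_ hCcl
    rw [totallyBounded_iff_subset_finite_iUnion_nhds_zero]
    intro U hU
    obtain ⟨U', hU', hU'cl, hU'U⟩ := exists_mem_nhds_isClosed_subset hU
    obtain ⟨d0, hd0⟩ := hD
    obtain ⟨d, hd, -, -, n, F, hF⟩ := hdir d0 hd0 d0 hd0 U' hU'
    refine ⟨F, F.finite_toSet, ?_⟩
    intro x hx
    have hcl : IsClosed (⋃ f ∈ (F : Set G), {x : G | x - f ∈ U'}) := by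
      refine F.finite_toSet.isClosed_biUnion fun f _ => ?_
      exact hU'cl.preimage (continuous_id.sub continuous_const)
    have hsub : mul d (V n) ⊆ ⋃ f ∈ (F : Set G), {x : G | x - f ∈ U'} := by
      intro y hy
      obtain ⟨f, hf, hyf⟩ := hF y hy
      exact mem_biUnion (Finset.mem_coe.2 hf) hyf
    have hx2 := closure_minimal hsub hcl (hx d hd n)
    obtain ⟨f, hf, hxf⟩ := mem_iUnion₂.1 hx2
    refine mem_iUnion₂.2 ⟨f, hf, ?_⟩
    rw [mem_vadd_set]
    exact ⟨x - f, hU'U hxf, by simp⟩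
  · intro U hU
    by_contra hcon
    push Not at hcon
    -- the filter
    let E : D × ℕ → Set G := fun i =>
      {x | x ∈ mul i.1.1 (V i.2) ∧ ∀ c ∈ C, x - c ∉ U}
    have hEne : ∀ i, (E i).Nonempty := by
      intro i
      obtain ⟨v, hv, hvc⟩ := hcon i.1.1 i.1.2 i.2
      exact ⟨i.1.1 • v, ⟨v, hv, rfl⟩, hvc⟩
    have hmul : ∀ d d' : ℤ, d ∣ d' → ∀ n : ℕ, ∃ n', ∀ m, n' ≤ m → mul d' (V m) ⊆ mul d (V n) := by
      rintro d d' ⟨e, rfl⟩ n
      refine ⟨n + e.natAbs, fun m hm => ?_⟩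
      rintro x ⟨v, hv, rfl⟩
      exact ⟨e • v, hintm e n v (hanti hm hv), by rw [mul_smul]⟩
    have hEdir : Directed (· ≥ ·) (fun i => 𝓟 (E i)) := by
      rintro ⟨⟨d1, hd1⟩, n1⟩ ⟨⟨d2, hd2⟩, n2⟩
      obtain ⟨d, hd, h1, h2, -⟩ := hdir d1 hd1 d2 hd2 univ univ_mem
      obtain ⟨m1, hm1⟩ := hmul d1 d h1 n1
      obtain ⟨m2, hm2⟩ := hmul d2 d h2 n2
      refine ⟨⟨⟨d, hd⟩, max m1 m2⟩, ?_, ?_⟩
      · refine principal_mono.2 ?_
        rintro x ⟨hx1, hx2⟩
        exact ⟨hm1 _ (le_max_left _ _) hx1, hx2⟩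
      · refine principal_mono.2 ?_
        rintro x ⟨hx1, hx2⟩
        exact ⟨hm2 _ (le_max_right _ _) hx1, hx2⟩
    obtain ⟨d0, hd0⟩ := hD
    have : Nonempty (D × ℕ) := ⟨⟨⟨d0, hd0⟩, 0⟩⟩
    have : NeBot (⨅ i, 𝓟 (E i)) :=
      iInf_neBot_of_directed' hEdir fun i => principal_neBot_iff.2 (hEne i)
    let F : Ultrafilter G := Ultrafilter.of (⨅ i, 𝓟 (E i))
    have hFE : ∀ i, E i ∈ F := fun i =>
      Ultrafilter.of_le (⨅ i, 𝓟 (E i)) (mem_iInf_of_mem i (mem_principal_self _))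
    have hFm : ∀ d ∈ D, ∀ n, mul d (V n) ∈ F := fun d hd n =>
      mem_of_superset (hFE ⟨⟨d, hd⟩, n⟩) fun x hx => hx.1
    have hcau : Cauchy (F : Filter G) := by
      rw [cauchy_iff]
      refine ⟨F.neBot, fun s hs => ?_⟩
      rw [uniformity_eq_comap_nhds_zero G, mem_comap] at hs
      obtain ⟨t, ht, hts⟩ := hs
      obtain ⟨W, hW, hWt⟩ : ∃ W ∈ 𝓝 (0 : G), ∀ v ∈ W, ∀ w ∈ W, v - w ∈ t := by
        have h1 : Tendsto (fun p : G × G => p.1 - p.2) (𝓝 (0, 0)) (𝓝 0) := by
          have hc : Continuous fun p : G × G => p.1 - p.2 := continuous_fst.sub continuous_snd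
          have h0 := hc.tendsto ((0 : G), (0 : G))
          rw [sub_self] at h0
          exact h0
        have h2 := h1 ht
        rw [mem_map, nhds_prod_eq, mem_prod_self_iff] at h2
        obtain ⟨W, hW, hWt⟩ := h2
        exact ⟨W, hW, fun v hv w hw => hWt (mk_mem_prod hv hw)⟩
      obtain ⟨d, hd, -, -, n, A, hA⟩ := hdir d0 hd0 d0 hd0 W hW
      have hU : (⋃ f ∈ (A : Set G), {x : G | x - f ∈ W}) ∈ F := by
        refine mem_of_superset (hFm d hd n) fun y hy => ?_
        obtain ⟨f, hf, hyf⟩ := hA y hy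
        exact mem_biUnion (Finset.mem_coe.2 hf) hyf
      rw [Ultrafilter.finite_biUnion_mem_iff A.finite_toSet] at hU
      obtain ⟨f, hf, hfF⟩ := hU
      refine ⟨_, hfF, ?_⟩
      rintro ⟨a, b⟩ ⟨ha, hb⟩
      apply hts
      have := hWt _ hb _ ha
      simpa using this
    obtain ⟨x, hx⟩ := CompleteSpace.complete hcau
    have hxC : x ∈ C := by
      intro d hd n
      exact mem_closure_iff_ultrafilter.2 ⟨F, hFm d hd n, hx⟩
    have hN : {y : G | y - x ∈ U} ∈ 𝓝 x := by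
      have h1 : Tendsto (fun y : G => y - x) (𝓝 x) (𝓝 0) := by
        have hc : Continuous fun y : G => y - x := continuous_id.sub continuous_const
        have h0 := hc.tendsto x
        rw [sub_self] at h0
        exact h0
      exact h1 hU
    have hN2 : {y : G | y - x ∈ U} ∈ F := hx hN
    obtain ⟨y, hy1, hy2⟩ := F.nonempty_of_mem (inter_mem hN2 (hFE ⟨⟨d0, hd0⟩, 0⟩))
    exact hy2.2 x hxC hy1
  · intro h0 c hc
    have h1 := hc 0 h0 0
    have h2 : mul (0 : ℤ) (V 0) ⊆ {0} := by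
      rintro x ⟨v, -, rfl⟩
      simp
    have h3 := closure_mono h2 h1
    rw [closure_singleton] at h3
    exact h3

end Pool.Agent.H753R3.LM
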